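import Mathlib
import Pool.Agent.Helper20.PD.Grow

/-!
# Growing blocks and Lempel–Ziv phrases in the expansions of `π`

The starting result `BlocksOfSmallComplexity` shows that the digits of `π` cannot be cut into few
blocks of algebraic complexity at most a fixed `k`. Here the complexity of a block may be `K` times
the number of the digits before it, the relation may include preceding digits, and one digit may be
omitted between two blocks: if the blocks cover the first `L` digits, then there are at least
`log L / log (A (K + 1))` blocks, with one constant `A` for all bases and all `K`. Special cases, with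
the monomials `1, x` for any irrational `x` algebraic over `ℚ(π)`:

* the phrases of Lempel and Ziv (single letters, or copies of blocks which begin further to the left
  and may overlap the phrase), which satisfy `d (i) = d (i - p)` with `p` at most the position: the
  prefixes of length `L` of the expansions of `x` have at least `log L / log A'` phrases (a normal
  number has about `L / log L` phrases; for Sturmian words and automatic sequences there are `O(log L)`
  phrases for infinitely many prefixes);
* blocks with a linear recurrence whose order is at most `K` times the position of the block;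
* the stretches between two errors of a predictor which, after an error, generates its guesses by an
  autonomous process with a transient part and a period bounded by `K` times the number of the digits
  read so far, for instance of a pushdown automaton.

For `x = π` the monomials may be `1, x, …, x ^ r`, and there is a joint version for families of
numbers algebraic over `ℚ(π)`.
-/

set_option autoImplicit false

namespace Pool.Agent.Results.MP_57632f_nt.LempelZivGrowingBlocks

open Finset Polynomial Module

/-- the `i`-th digit of `x` after the point in base `b` -/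
noncomputable def digit (b : ℕ) (x : ℝ) (i : ℕ) : ℤ := ⌊x * (b : ℝ) ^ i⌋ % (b : ℤ)

/-- the polynomial `d_(u+1) X + ⋯ + d_v X^(v-u)`, where `d_i` is the `i`-th digit of `x` -/
noncomputable def blockPoly (b : ℕ) (x : ℝ) (u v : ℕ) : ℚ[X] :=
  ∑ l ∈ Icc 1 (v - u), C (digit b x (u + l) : ℚ) * X ^ l

/-- there are polynomials `h_0, …, h_m` over `ℚ` of degree `≤ k`, not all zero, such that
`∑_j h_j ∏_i D_i ^ (E j i)` is divisible by `X^(v-u+1)`, where `D_i` is the polynomial of the block
of the digits of `x_i` from the `(u+1)`-st to the `v`-th place -/
def MonRelation (b : ℕ) {n m : ℕ} (x : Fin n → ℝ) (E : Fin (m + 1) → Fin n → ℕ) (u v k : ℕ) :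
    Prop :=
  ∃ h : Fin (m + 1) → ℚ[X], h ≠ 0 ∧ (∀ j, (h j).natDegree ≤ k) ∧
    X ^ (v - u + 1) ∣ ∑ j, h j * ∏ i, blockPoly b (x i) u v ^ E j i

/-- Let `x_1, …, x_n` be real numbers algebraic over `ℚ(π)`, and let `E` be a finite set of
exponents, closed under divisors, such that the monomials with these exponents in `x_1, …, x_n` are
linearly independent over `ℚ`. There is a constant `A ≥ 1` such that for all bases `b ≥ 2`, all `K` and
`s`, and all `0 = c_0, c_1, …, c_s`: if for each `i < s` there are `u_i ≤ v_i` and `k_i` with
`u_i + k_i ≤ K (c_i + 1)` and `c_(i+1) ≤ v_i + 1` such that the digits of `x_1, …, x_n` from the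
`(u_i + 1)`-st to the `v_i`-th place satisfy a relation between the monomials with coefficients of
degree at most `k_i`, then `c_s ≤ (A (K + 1)) ^ s`. -/
theorem result (n m : ℕ) (x : Fin n → ℝ)
    (hx : ∀ i, IsAlgebraic (IntermediateField.adjoin ℚ ({Real.pi} : Set ℝ)) (x i))
    (E : Fin (m + 1) → Fin n → ℕ) (hdown : ∀ j, ∀ a : Fin n → ℕ, a ≤ E j → ∃ j', E j' = a)
    (hli : LinearIndependent ℚ fun j => ∏ i, x i ^ E j i) :
    ∃ A : ℝ, 1 ≤ A ∧ ∀ b : ℕ, 2 ≤ b → ∀ (K s : ℕ) (c u v k : ℕ → ℕ), c 0 = 0 →
      (∀ i < s, u i ≤ v i ∧ u i + k i ≤ K * (c i + 1) ∧ c (i + 1) ≤ v i + 1 ∧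
        MonRelation b x E (u i) (v i) (k i)) →
      (c s : ℝ) ≤ (A * (K + 1)) ^ s := by
  obtain ⟨A, hA, h⟩ := Pool.Agent.Helper20.PD.grow_alg Real.pi Pool.Agent.R473.EC.measR_pi x hx E
    hdown hli
  exact ⟨A, hA, fun b hb K s c u v k hc0 hblk => h b hb K s c u v k hc0 hblk⟩

end Pool.Agent.Results.MP_57632f_nt.LempelZivGrowingBlocks
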