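import Mathlib
import Pool.Agent.Helper61A.DS.Final

/-!
# Normality and single digits of the integer multiples

A real number `x` is normal in a base `b ≥ 3` as soon as single digits are equidistributed in all its
integer multiples; if `x` is not normal then there are many integer multiples of `x` which are not simply
normal.

The proof shows that the exponential `e(t)` is a uniform limit of linear combinations of functions of the
first digit after the point of the numbers `k t`, `k ≤ K` (Davenport's series twisted by an even and an odd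
character modulo `b`), and combines this with the Weyl criterion and van der Corput's inequality.
-/

set_option autoImplicit false

namespace Pool.Agent.Results.MP_57632f_nt.MultiplesSimplyNormal

open Filter Topology

/-- `x` is simply normal in base `b`: each digit `d < b` has asymptotic frequency `1 / b` in the base-`b`
expansion of `x`; the digit in position `i + 1` after the point is `⌊x b ^ (i + 1)⌋ mod b`. -/
def SimplyNormal (b : ℕ) (x : ℝ) : Prop :=
  ∀ d : ℕ, d < b → Tendsto (fun N : ℕ => (((Finset.range N).filter
    (fun i : ℕ => ⌊x * (b : ℝ) ^ (i + 1)⌋ % (b : ℤ) = (d : ℤ))).card : ℝ) / (N : ℝ))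
    atTop (𝓝 (1 / (b : ℝ)))

/-- `x` is normal in base `b`: each word `w` of length `k ≥ 1` has asymptotic frequency `b ^ (-k)` in the
base-`b` expansion of `x`. -/
def Normal (b : ℕ) (x : ℝ) : Prop :=
  ∀ k : ℕ, 0 < k → ∀ w : Fin k → Fin b, Tendsto (fun N : ℕ => (((Finset.range N).filter
    (fun i : ℕ => ∀ j : Fin k, ⌊x * (b : ℝ) ^ (i + 1 + (j : ℕ))⌋ % (b : ℤ) = (((w j : ℕ)) : ℤ))).card : ℝ)
      / (N : ℝ)) atTop (𝓝 ((1 : ℝ) / (b : ℝ) ^ k))

/-- For every real `x` and every base `b ≥ 3`: `x` is normal in base `b` if and only if `m x` is simply normal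
in base `b` for every integer `m ≥ 1`; and if `x` is not normal in base `b` then, for every `B`, for all large
`X` more than `(log X) ^ B` of the integers `1 ≤ m ≤ X` not divisible by `b` have the property that `m x` is not
simply normal in base `b`. -/
theorem result (b : ℕ) (hb : 3 ≤ b) (x : ℝ) :
    (Normal b x ↔ ∀ m : ℕ, 1 ≤ m → SimplyNormal b ((m : ℝ) * x)) ∧
    (¬ Normal b x → ∀ B : ℕ, ∀ᶠ X : ℕ in atTop, Real.log X ^ B <
      (Set.ncard {m : ℕ | 1 ≤ m ∧ m ≤ X ∧ ¬ b ∣ m ∧ ¬ SimplyNormal b ((m : ℝ) * x)} : ℝ)) := by
  refine ⟨Pool.Agent.Helper61A.DS.normal_iff hb x, fun hx B => ?_⟩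
  have h := Pool.Agent.Helper61A.DS.exc_pow hb hx (B + 1)
  filter_upwards [h, Pool.Agent.Helper61A.DS.ev_log_ge 2] with X hX h2
  refine lt_of_lt_of_le ?_ hX
  rw [pow_succ]
  have h3 : 0 < Real.log X ^ B := by positivity
  nlinarith

end Pool.Agent.Results.MP_57632f_nt.MultiplesSimplyNormal
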