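import Mathlib
import Pool.Agent.Helper20.PD.Win
import Pool.Agent.Helper20.PD.Lower
import Pool.Agent.Results.MP_57632f_nt.FiniteStatePredictors

/-!
# Prediction and compression of the digits of the multiples `a q ^ n π` in long windows

`π` is normal in base `b` if and only if all its nonzero integer multiples are, and then in a window of
`N` digits every pushdown predictor with few symbols is expected to be wrong about
`(1 - 1 / b) N` times. The starting result `WordsInLongWindows` shows that for almost all `n` every
word of `k` digits stands at least `M ^ (1 - ε)` times in every window of the digits of `a q ^ n π` of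
some length of the order of `M`. Here we show for the same windows that they are unpredictable and
incompressible in a power sense: a deterministic pushdown automaton (a stack of unbounded height,
internal moves allowed), which starts in any state at any place `u` and guesses each digit before it
reads it, is wrong at least `M ^ (1 - ε)` times before it has read the window; and a lossless automaton
with `K` states writes something in at least `M ^ (1 - ε)` of the steps in which it reads the window.
For a single number like `π` only logarithmic bounds are known. The exceptional set of the `n` does not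
depend on the machine, only on its size.

The proof combines the uniform analysis of pushdown predictors (`Pool.Agent.Helper20.PD.Uni`: few
errors imply few `k` with `d k ≠ d (k + P)`) with the occurrences of the word `0…01` of length `P + 1`
in the windows (starting files `Pool.Agent.Y949.LW`).
-/

set_option autoImplicit false

namespace Pool.Agent.Results.MP_57632f_nt.PredictionInWindows

open Finset Pool.Agent.R473.PP Pool.Agent.Helper20.PD

/-- Let `b, q ≥ 2`, where `b` and `q` are coprime or `b = q v` with `v ≥ 2` coprime to `q` (for
`b = 10` the base `q` may be `2`, `5` or any number coprime to `10`). Let `x` be an irrational real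
number which is algebraic over `ℚ(π)`. There is `κ > 0`, `κ = 5.05` for `x = π`, such that for all
`C > κ`, `ε, δ > 0`, all finite sets `Q` of states and `Γ` of stack symbols and all `K`, `R`:

if `M` is large, then for all `J` and all `a ≥ 1` and for all but at most `δ M` of the numbers `n` with
`J ≤ n < J + M` the following holds for every `u ≤ R (J + M)`, the digits `d 0, d 1, …` of `a q ^ n x`
from the `(u + 1)`-st place after the point on, and every `N ≥ C (u + log_b (a q ^ n))`:

(1) every pushdown predictor with states `Q` and stack symbols `Γ`, started in any state `q₀` with the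
empty stack, is wrong at least `M ^ (1 - ε)` times in its first `T` steps, if it has read at least `N`
digits in these steps;

(2) every lossless automaton with `K` states writes something in at least `M ^ (1 - ε)` of the first
`N` steps in which it reads these digits. -/
theorem result (b q : ℕ) (hb : 2 ≤ b) (hq : 2 ≤ q)
    (hbq : Nat.Coprime b q ∨ ∃ v : ℕ, 2 ≤ v ∧ Nat.Coprime q v ∧ b = q * v) (x : ℝ)
    (halg : IsAlgebraic (IntermediateField.adjoin ℚ ({Real.pi} : Set ℝ)) x) (hirr : Irrational x) :
    ∃ κ : ℝ, 0 < κ ∧ (x = Real.pi → κ = 5.05) ∧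
      ∀ (C ε δ : ℝ), κ < C → 0 < ε → 0 < δ → ∀ (Q Γ : Type) [Finite Q] [Finite Γ] (K R : ℕ),
        ∃ M₀ : ℕ, ∀ M J a : ℕ, M₀ ≤ M → 1 ≤ a →
          (({n : ℕ | J ≤ n ∧ n < J + M ∧ ¬ ∀ u : ℕ, u ≤ R * (J + M) → ∀ d : ℕ → Fin b,
            (∀ i, ((d i : ℕ) : ℤ) = ⌊a * (q : ℝ) ^ n * x * (b : ℝ) ^ (u + i + 1)⌋ % (b : ℤ)) →
            ∀ N : ℕ, C * (u + Real.log (a * (q : ℝ) ^ n) / Real.log b) ≤ N →
              (∀ (A : Predictor b Q Γ) (q₀ : Q) (T : ℕ), N ≤ (A.conf q₀ d T).1 →
                (M : ℝ) ^ (1 - ε) ≤ A.wrong q₀ d T) ∧
              (∀ (β : Type) [DecidableEq β] (δ' : Fin K → Fin b → Fin K)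
                (o : Fin K → Fin b → List β) (q₀ : Fin K), Lossless δ' o q₀ →
                (M : ℝ) ^ (1 - ε) ≤ writes δ' o q₀ d N)}.ncard : ℕ) : ℝ) ≤ δ * M := by
  have main : ∃ κ c : ℝ, 0 < κ ∧ (x = Real.pi → κ = 5.05) ∧ 0 < c ∧
      ∀ Q : ℕ, 1 ≤ Q → ∀ P : ℤ, c ≤ (Q : ℝ) ^ κ * |Q * x - P| := by
    by_cases hx : x = Real.pi
    · obtain ⟨c, hc, h⟩ := Pool.Agent.Results.MP_57632f_nt.FiniteStatePredictors.pi_measure
      refine ⟨5.05, c, by norm_num, fun _ => rfl, hc, fun Q hQ P => ?_⟩
      have h1 := h Q hQ P
      rw [Real.rpow_zero, mul_one, show (6.05 : ℝ) - 1 = 5.05 by norm_num] at h1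
      rw [hx]
      exact h1
    · obtain ⟨μ, c, hμ, hc, h⟩ := meas_over_pi x halg hirr
      refine ⟨μ - 1, c, by linarith, fun h0 => absurd h0 hx, hc, fun Q hQ P => ?_⟩
      have h1 := h Q hQ P
      rw [Real.rpow_zero, mul_one] at h1
      exact h1
  obtain ⟨κ, c, hκ, hπ, hc, hx⟩ := main
  exact ⟨κ, hκ, hπ, fun C ε δ hC hε hδ Q Γ _ _ K R =>
    windows_all b q hb hq hbq hκ hc hx Q Γ K R C ε δ hC hε hδ⟩

end Pool.Agent.Results.MP_57632f_nt.PredictionInWindows
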