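import Mathlib
import Pool.Agent.Helper20.PD.Lower

/-!
# Pushdown prediction and lossless compression of the digits of `π`

If `π` were normal in base `b`, then every finite automaton which guesses its digits one after the
other would be wrong with frequency `1 - 1 / b`, and every lossless finite-state compressor would
write about one digit per step (Agafonov; Schnorr and Stimm; Dai, Lathrop, Lutz and Mayordomo;
Becher and Heiber). The starting result `FiniteStatePredictors` bounds the number of errors of
finite automata from below. Here the predictors have an unbounded memory, and the machines may also
compress instead of guessing.

* Prediction. A deterministic pushdown automaton (finitely many states, one stack of unbounded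
  height, internal moves allowed) reads the digits and guesses each of them before it reads it.
* Compression. An automaton with `K` states writes a word of any length, over any alphabet, in every
  step, such that what it has read is determined by what it has written and its last state. We count
  the steps in which it writes at all.

In both cases `N ≤ A ^ (E + 1)`, where `N` is the number of the digits and `E` is the number of
the errors or writes, that is `E ≥ log N / log A - 1`. The constant `A` depends only on the size
of the machine: it is the same for all bases `b ≥ 2`, all machines with given sets of states and stack
symbols and all initial states. This holds for `π` and for every irrational real number algebraic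
over `ℚ(π)`, e.g. `1 / π`, `√π`, `π + √2`.

The proof: a uniform version of the analysis of autonomous pushdown programs of the starting files
`Pool.Agent.W979.HS` (one universal program, which writes its configuration instead of the guess)
shows that a sequence with few errors satisfies `d k = d (k + P)` with few exceptions, for one `P`;
the same holds for a compressor which is silent in most steps; and the irrationality measures of the
numbers algebraic over `ℚ(π)` bound the number of the exceptions from below.
-/

set_option autoImplicit false

namespace Pool.Agent.Results.MP_57632f_nt.PushdownPredictionCompression

open Finset Pool.Agent.R473.PP Pool.Agent.W979.HS Pool.Agent.Helper20.PD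

/-- Here `IsDigits b x d` says that `d 0, d 1, …` are the digits of `x` after the point in base `b`.
Let `x` be an irrational real number which is algebraic over `ℚ(π)` (for instance `x = π`).

For all finite sets `Q` of states and `Γ` of stack symbols there is `A` such that for all
bases `b ≥ 2`, all pushdown predictors `M` with these states and stack symbols, all initial states
`q₀` and all `N`: if `M` has read at least `N` digits of `x` in its first `T` steps, then
`N ≤ A ^ (E + 1)`, where `E = M.wrong q₀ d T` is the number of its wrong guesses in these steps.

For all `K` there is `A` such that for all bases `b ≥ 2`, all lossless automata with `K`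
states and all `N`: `N ≤ A ^ (E + 1)`, where `E` is the number of the steps among the first `N` in
which the automaton, reading the digits of `x`, writes something. -/
theorem result (x : ℝ) (halg : IsAlgebraic (IntermediateField.adjoin ℚ ({Real.pi} : Set ℝ)) x)
    (hirr : Irrational x) :
    (∀ (Q Γ : Type) [Finite Q] [Finite Γ], ∃ A : ℝ, ∀ b : ℕ, 2 ≤ b → ∀ d : ℕ → Fin b,
      IsDigits b x d → ∀ (M : Predictor b Q Γ) (q₀ : Q) (N T : ℕ), N ≤ (M.conf q₀ d T).1 →
        (N : ℝ) ≤ A ^ (M.wrong q₀ d T + 1)) ∧
    (∀ K : ℕ, ∃ A : ℝ, ∀ b : ℕ, 2 ≤ b → ∀ d : ℕ → Fin b, IsDigits b x d →
      ∀ (β : Type) [DecidableEq β] (δ : Fin K → Fin b → Fin K) (o : Fin K → Fin b → List β)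
        (q₀ : Fin K), Lossless δ o q₀ → ∀ N : ℕ, (N : ℝ) ≤ A ^ (writes δ o q₀ d N + 1)) := by
  classical
  obtain ⟨μ, c, hμ, hc, hm⟩ := meas_over_pi x halg hirr
  obtain ⟨h1, h2, -⟩ := all_lower x μ c hμ hc hm
  exact ⟨h1, h2⟩

end Pool.Agent.Results.MP_57632f_nt.PushdownPredictionCompression
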